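import Pool.Agent.helper47.SPI.Spec

/-!
# Project SPI, row CO3: the core inequality
-/

set_option autoImplicit false

namespace Pool.Agent.SPI

open Finset Pool.Agent.helper85.PG
open scoped Pointwise

private theorem CO3_key (p : ℕ) [Fact p.Prime] (A B : Finset (ZMod p)) (s : ZMod p) (χ : MulChar (ZMod p) ℂ)
    (α β : ZMod p → ℂ) (τ : ℂ)
    (hτ : ∀ n : ZMod p, τ * χ n = ∑ t : ZMod p, χ⁻¹ t * (ZMod.stdAddChar (t * n) : ℂ)) :
    τ * ∑ a ∈ A, ∑ b ∈ B, α a * β b * χ (a + b + s) =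
      ∑ t : ZMod p, (χ⁻¹ t * (ZMod.stdAddChar (t * s) : ℂ)) * ft A α t * ft B β t := by
  have e1 : ∀ a b, τ * (α a * β b * χ (a + b + s)) = ∑ t : ZMod p,
      (χ⁻¹ t * (ZMod.stdAddChar (t * s) : ℂ)) *
        ((α a * (ZMod.stdAddChar (t * a) : ℂ)) * (β b * (ZMod.stdAddChar (t * b) : ℂ))) := by
    intro a b
    have e2 : τ * (α a * β b * χ (a + b + s)) = α a * β b * (τ * χ (a + b + s)) := by ring
    rw [e2, hτ, Finset.mul_sum]
    refine Finset.sum_congr rfl fun t _ => ?_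
    have e3 : t * (a + b + s) = t * a + (t * b + t * s) := by ring
    rw [e3, AddChar.map_add_eq_mul, AddChar.map_add_eq_mul]
    push_cast
    ring
  calc τ * ∑ a ∈ A, ∑ b ∈ B, α a * β b * χ (a + b + s)
      = ∑ a ∈ A, ∑ b ∈ B, ∑ t : ZMod p, (χ⁻¹ t * (ZMod.stdAddChar (t * s) : ℂ)) *
        ((α a * (ZMod.stdAddChar (t * a) : ℂ)) * (β b * (ZMod.stdAddChar (t * b) : ℂ))) := by
        rw [Finset.mul_sum]
        refine Finset.sum_congr rfl fun a _ => ?_
        rw [Finset.mul_sum]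
        exact Finset.sum_congr rfl fun b _ => e1 a b
    _ = ∑ a ∈ A, ∑ t : ZMod p, ∑ b ∈ B, (χ⁻¹ t * (ZMod.stdAddChar (t * s) : ℂ)) *
        ((α a * (ZMod.stdAddChar (t * a) : ℂ)) * (β b * (ZMod.stdAddChar (t * b) : ℂ))) :=
        Finset.sum_congr rfl fun a _ => Finset.sum_comm
    _ = ∑ t : ZMod p, ∑ a ∈ A, ∑ b ∈ B, (χ⁻¹ t * (ZMod.stdAddChar (t * s) : ℂ)) *
        ((α a * (ZMod.stdAddChar (t * a) : ℂ)) * (β b * (ZMod.stdAddChar (t * b) : ℂ))) := Finset.sum_comm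
    _ = _ := by
        refine Finset.sum_congr rfl fun t _ => ?_
        unfold ft
        rw [mul_assoc, Finset.sum_mul_sum, Finset.mul_sum]
        refine Finset.sum_congr rfl fun a _ => ?_
        rw [Finset.mul_sum]

private theorem CO3_sum (p : ℕ) [Fact p.Prime] (hPLN : PLN_stmt) (A : Finset (ZMod p)) (w : ZMod p → ℂ)
    (hw : ∀ a, ‖w a‖ ≤ 1) : ∑ t : ZMod p, ‖ft A w t‖ ^ 2 ≤ Real.sqrt (p * A.card) ^ 2 := by
  rw [hPLN, Real.sq_sqrt (by positivity)]
  refine mul_le_mul_of_nonneg_left ?_ (by positivity)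
  refine (Finset.sum_le_card_nsmul A _ 1 fun a _ => ?_).trans (by simp)
  exact pow_le_one₀ (norm_nonneg _) (hw a)

/-- the numerical end -/
private theorem CO3_num {P κ δ₁ δ h M c n S : ℝ} (hP : 1 ≤ P) (hκ : 0 < κ)
    (hδ : 0 < δ) (hd1 : 2 * δ ≤ δ₁ / 2) (hd2 : 2 * δ ≤ κ / 4) (h14 : 14 ≤ P ^ δ)
    (hh1 : 1 ≤ h) (hh : h ≤ P ^ κ) (hh2 : P ^ κ ≤ 2 * h) (hM : 0 ≤ M) (hM1 : M ≤ P ^ (1 - 4 * κ)) (hc : 0 ≤ c)
    (hch : c * h ≤ P ^ (1 / 2 + κ / 4)) (hn : 0 ≤ n)
    (hS : Real.sqrt P * S ≤ Real.sqrt (P ^ (-δ₁)) * (P * Real.sqrt n) + 2 * Real.sqrt h * c * n +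
      2 * (Real.sqrt P * Real.sqrt P * Real.sqrt n * (2 * Real.pi * h * M / P))) :
    S ≤ P ^ (-δ) * (Real.sqrt (P * n) + n) := by
  have hP0 : 0 < P := by linarith
  have hsP : 0 < Real.sqrt P := Real.sqrt_pos.2 hP0
  have hsPsq : Real.sqrt P * Real.sqrt P = P := Real.mul_self_sqrt hP0.le
  have hsn : 0 ≤ Real.sqrt n := Real.sqrt_nonneg n
  set x := P ^ (-(2 * δ)) with hx
  have hx0 : 0 < x := Real.rpow_pos_of_pos hP0 _
  have hxd : P ^ (-δ) = P ^ δ * x := by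
    rw [hx, ← Real.rpow_add hP0]
    congr 1
    ring
  -- first factor
  have f1 : Real.sqrt (P ^ (-δ₁)) ≤ x := by
    rw [Real.sqrt_eq_rpow, ← Real.rpow_mul hP0.le, hx]
    exact Real.rpow_le_rpow_of_exponent_le hP (by linarith)
  -- second factor
  have hsh : 0 < Real.sqrt h := Real.sqrt_pos.2 (by linarith)
  have f2 : Real.sqrt h * c ≤ 2 * (Real.sqrt P * x) := by
    have g1 : P ^ (κ / 2) ≤ 2 * Real.sqrt h := by
      have e : P ^ (κ / 2) = Real.sqrt (P ^ κ) := by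
        rw [Real.sqrt_eq_rpow, ← Real.rpow_mul hP0.le]
        congr 1
        ring
      rw [e]
      have e2 : (2 : ℝ) * Real.sqrt h = Real.sqrt (4 * h) := by
        rw [Real.sqrt_mul (by norm_num), show (4 : ℝ) = 2 ^ 2 by norm_num, Real.sqrt_sq (by norm_num)]
      rw [e2]
      exact Real.sqrt_le_sqrt (by linarith)
    have g2 : (Real.sqrt h * c) * Real.sqrt h ≤ P ^ (1 / 2 + κ / 4) := by
      have : (Real.sqrt h * c) * Real.sqrt h = c * (Real.sqrt h * Real.sqrt h) := by ring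
      rw [this, Real.mul_self_sqrt (by linarith)]
      exact hch
    have g3 : P ^ (1 / 2 + κ / 4) = (Real.sqrt P * P ^ (-(κ / 4))) * P ^ (κ / 2) := by
      rw [Real.sqrt_eq_rpow, ← Real.rpow_add hP0, ← Real.rpow_add hP0]
      congr 1
      ring
    have g4 : P ^ (-(κ / 4)) ≤ x := by
      rw [hx]
      exact Real.rpow_le_rpow_of_exponent_le hP (by linarith)
    have g5 : (Real.sqrt h * c) * Real.sqrt h ≤ (2 * (Real.sqrt P * x)) * Real.sqrt h := by
      refine g2.trans ?_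
      rw [g3]
      calc (Real.sqrt P * P ^ (-(κ / 4))) * P ^ (κ / 2) ≤ (Real.sqrt P * x) * (2 * Real.sqrt h) := by
            refine mul_le_mul (mul_le_mul_of_nonneg_left g4 hsP.le) g1 (by positivity) (by positivity)
        _ = _ := by ring
    exact le_of_mul_le_mul_right g5 hsh
  -- third factor
  have f3 : h * M / P ≤ x := by
    rw [div_le_iff₀ hP0]
    have g1 : h * M ≤ P ^ κ * P ^ (1 - 4 * κ) := mul_le_mul hh hM1 hM (by positivity)
    refine g1.trans ?_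
    rw [← Real.rpow_add hP0]
    have g2 : x * P = P ^ (-(2 * δ) + 1) := by
      rw [hx, Real.rpow_add hP0, Real.rpow_one]
    rw [g2]
    exact Real.rpow_le_rpow_of_exponent_le hP (by linarith)
  have hpi : Real.pi ≤ 13 / 4 := by
    have := Real.pi_lt_d2
    linarith
  have hpi0 := Real.pi_pos
  -- assemble
  have hSn : Real.sqrt (P * n) = Real.sqrt P * Real.sqrt n := Real.sqrt_mul hP0.le n
  have hmain : Real.sqrt P * S ≤ Real.sqrt P * (14 * x * (Real.sqrt (P * n) + n)) := by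
    refine hS.trans ?_
    rw [hSn]
    have t1 : Real.sqrt (P ^ (-δ₁)) * (P * Real.sqrt n) ≤ x * (P * Real.sqrt n) :=
      mul_le_mul_of_nonneg_right f1 (by positivity)
    have t2 : 2 * Real.sqrt h * c * n ≤ 4 * (Real.sqrt P * x) * n := by
      have : 2 * Real.sqrt h * c * n = 2 * (Real.sqrt h * c) * n := by ring
      rw [this]
      have := mul_le_mul_of_nonneg_right f2 hn
      linarith
    have t3 : 2 * (Real.sqrt P * Real.sqrt P * Real.sqrt n * (2 * Real.pi * h * M / P)) ≤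
        13 * (P * Real.sqrt n * x) := by
      have e : 2 * (Real.sqrt P * Real.sqrt P * Real.sqrt n * (2 * Real.pi * h * M / P)) =
          4 * Real.pi * (P * Real.sqrt n) * (h * M / P) := by
        rw [hsPsq]
        ring
      rw [e]
      have e1 : 4 * Real.pi * (P * Real.sqrt n) * (h * M / P) ≤ 4 * Real.pi * (P * Real.sqrt n) * x :=
        mul_le_mul_of_nonneg_left f3 (by positivity)
      have e2 : 4 * Real.pi * ((P * Real.sqrt n) * x) ≤ 13 * ((P * Real.sqrt n) * x) :=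
        mul_le_mul_of_nonneg_right (by linarith) (by positivity)
      calc _ ≤ _ := e1
        _ = 4 * Real.pi * ((P * Real.sqrt n) * x) := by ring
        _ ≤ _ := e2
        _ = _ := by ring
    have e4 : Real.sqrt P * (14 * x * (Real.sqrt P * Real.sqrt n + n)) =
        14 * (x * (P * Real.sqrt n)) + 14 * (Real.sqrt P * x) * n := by
      calc _ = 14 * x * (Real.sqrt P * Real.sqrt P) * Real.sqrt n + 14 * (Real.sqrt P * x) * n := by ring
        _ = _ := by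
          rw [hsPsq]
          ring
    rw [e4]
    have t5 : 0 ≤ (Real.sqrt P * x) * n := by positivity
    linarith
  have h2 := le_of_mul_le_mul_left hmain hsP
  refine h2.trans ?_
  refine mul_le_mul_of_nonneg_right ?_ (by positivity)
  rw [hxd]
  exact mul_le_mul_of_nonneg_right h14 hx0.le

theorem CO3 (hGSI : GSI_stmt) (hPLN : PLN_stmt) (hSMO : SMO_stmt) (hAV2 : AV2_stmt) (hGBS : GBS_stmt)
    (hBDS : BDS_stmt) : CO3_stmt := by
  intro η hη
  set κ : ℝ := min η 1 / 4 with hκ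
  have hmin0 : 0 < min η 1 := lt_min hη one_pos
  have hκ0 : 0 < κ := by
    rw [hκ]
    linarith
  have hκ1 : κ ≤ 1 / 4 := by
    rw [hκ]
    linarith [min_le_right η 1]
  have hκη : 4 * κ ≤ η := by
    rw [hκ]
    linarith [min_le_left η 1]
  obtain ⟨γ, δ₁, p₀, hγ, hγκ, hδ₁, hB⟩ := hBDS κ hκ0 hκ1
  set δ : ℝ := min (δ₁ / 2) (κ / 4) / 2 with hδ
  have hδ0 : 0 < δ := by
    rw [hδ]
    have : 0 < min (δ₁ / 2) (κ / 4) := lt_min (by linarith) (by linarith)
    linarith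
  have hd1 : 2 * δ ≤ δ₁ / 2 := by
    rw [hδ]
    linarith [min_le_left (δ₁ / 2) (κ / 4)]
  have hd2 : 2 * δ ≤ κ / 4 := by
    rw [hδ]
    linarith [min_le_right (δ₁ / 2) (κ / 4)]
  refine ⟨δ, max p₀ ⌈(14 : ℝ) ^ (1 / δ)⌉₊, hδ0, ?_⟩
  intro p _ hp A B s ζ M χ α β hζ hM hA hBm hχ hα hβ
  have hpp : p.Prime := Fact.out
  have hp1 : p₀ < p := (le_max_left _ _).trans_lt hp
  have hp2 : ((14 : ℝ) ^ (1 / δ)) ≤ p := by
    have h1 : (⌈(14 : ℝ) ^ (1 / δ)⌉₊ : ℝ) ≤ p := by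
      exact_mod_cast ((le_max_right _ _).trans_lt hp).le
    exact (Nat.le_ceil _).trans h1
  have hP1 : (1 : ℝ) ≤ p := by exact_mod_cast hpp.one_lt.le
  have hP0 : (0 : ℝ) < p := by linarith
  have h14 : (14 : ℝ) ≤ (p : ℝ) ^ δ := by
    have h1 : ((14 : ℝ) ^ (1 / δ)) ^ δ ≤ (p : ℝ) ^ δ := Real.rpow_le_rpow (by positivity) hp2 hδ0.le
    rwa [← Real.rpow_mul (by norm_num), one_div, inv_mul_cancel₀ hδ0.ne', Real.rpow_one] at h1
  have hχ' : χ⁻¹ ≠ 1 := fun h => hχ (inv_eq_one.1 h)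
  set h : ℕ := ⌊(p : ℝ) ^ κ⌋₊ with hh
  set M' : ℕ := ⌊(p : ℝ) ^ (κ - γ)⌋₊ with hM'
  obtain ⟨m1, m2, m3, m4⟩ := hB p hp1 χ⁻¹ ζ h M' hχ' hζ hh hM'
  have hh0 : 0 < h := by omega
  obtain ⟨τ, hτn, hτ⟩ := hGSI p χ hχ
  have hkey := CO3_key p A B s χ α β τ hτ
  -- AV2
  set E : ℝ := 2 * Real.pi * h * M / p with hE
  have hE0 : 0 ≤ E := by positivity
  have hEx : ∀ x : ℕ, x < h → (2 * Real.pi * x * M / p) ^ 2 ≤ E ^ 2 := by
    intro x hx
    have hxh : (x : ℝ) ≤ h := by exact_mod_cast hx.le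
    refine pow_le_pow_left₀ (by positivity) ?_ 2
    rw [hE]
    refine div_le_div_of_nonneg_right ?_ hP0.le
    refine mul_le_mul_of_nonneg_right ?_ (by positivity)
    exact mul_le_mul_of_nonneg_left hxh (by positivity)
  have hav := hAV2 p (fun t => χ⁻¹ t * (ZMod.stdAddChar (t * s) : ℂ)) (ft A α) (ft B β) ζ h
    (Real.sqrt (p * A.card)) (Real.sqrt (p * B.card)) (Real.sqrt (p * A.card) * E) (Real.sqrt (p * B.card) * E)
    hh0 (fun t => by
      rw [norm_mul]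
      have h1 : ‖(ZMod.stdAddChar (t * s) : ℂ)‖ = 1 := AddChar.norm_apply _ _
      rw [h1, mul_one]
      exact DirichletCharacter.norm_le_one _ _)
    (Real.sqrt_nonneg _) (Real.sqrt_nonneg _) (by positivity) (by positivity)
    (CO3_sum p hPLN A α hα) (CO3_sum p hPLN B β hβ)
    (fun x hx => by
      have h1 := hSMO p A α 1 M x hα (fun a ha => by rw [one_mul]; exact hA a ha)
      simp_rw [one_mul] at h1
      refine h1.trans ?_
      rw [mul_pow, Real.sq_sqrt (by positivity)]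
      exact mul_le_mul_of_nonneg_left (hEx x hx) (by positivity))
    (fun y hy => by
      have h1 := hSMO p B β ζ M y hβ hBm
      refine h1.trans ?_
      rw [mul_pow, Real.sq_sqrt (by positivity)]
      exact mul_le_mul_of_nonneg_left (hEx y hy) (by positivity))
  have hlam : (0 : ℝ) ≤ (p : ℝ) ^ (-δ₁) := (Real.rpow_pos_of_pos hP0 _).le
  have hgb := hGBS p χ⁻¹ ζ s h M' A B α β ((p : ℝ) ^ (-δ₁)) m1 m2 hlam hα hβ
  rw [← hkey, norm_mul, hτn] at hav
  have hhR : (0 : ℝ) < h := by exact_mod_cast hh0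
  have hh2 : (0 : ℝ) < (h : ℝ) ^ 2 := by positivity
  set c : ℝ := ((univ.filter fun t : ZMod p => (p : ℝ) ^ (-δ₁) * (h : ℝ) ^ 2 < RR χ⁻¹ ζ h M' t).card : ℝ) with hc
  have hc0 : 0 ≤ c := by positivity
  have hdiv := div_le_div_of_nonneg_right hgb hh2.le
  have e1 : (Real.sqrt ((p : ℝ) ^ (-δ₁)) * (h : ℝ) ^ 2 * (p * Real.sqrt (A.card * B.card)) +
      2 * (h : ℝ) ^ 2 * Real.sqrt h * c * (A.card * B.card)) / (h : ℝ) ^ 2 =
      Real.sqrt ((p : ℝ) ^ (-δ₁)) * (p * Real.sqrt (A.card * B.card)) +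
        2 * Real.sqrt h * c * (A.card * B.card) := by
    field_simp
  rw [e1] at hdiv
  have hpkl : (p : ℝ) ^ κ ≤ 2 * h := by
    have h1 : (p : ℝ) ^ κ < h + 1 := Nat.lt_floor_add_one _
    have h2 : (1 : ℝ) ≤ h := by exact_mod_cast hh0
    linarith
  have hMk : (M : ℝ) ≤ (p : ℝ) ^ (1 - 4 * κ) :=
    hM.trans (Real.rpow_le_rpow_of_exponent_le hP1 (by linarith))
  refine CO3_num (h := h) (M := M) (c := c) (n := (A.card : ℝ) * B.card) hP1 hκ0 hδ0 hd1 hd2 h14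
    (by exact_mod_cast hh0) (Nat.floor_le (by positivity)) hpkl (by positivity) hMk hc0 m4 (by positivity) ?_
  refine hav.trans ?_
  have e2 : Real.sqrt (p * A.card) * E * Real.sqrt (p * B.card) + Real.sqrt (p * A.card) * (Real.sqrt (p * B.card) * E) =
      2 * (Real.sqrt p * Real.sqrt p * Real.sqrt (A.card * B.card) * (2 * Real.pi * h * M / p)) := by
    rw [Real.sqrt_mul hP0.le, Real.sqrt_mul hP0.le, Real.sqrt_mul (by positivity : (0 : ℝ) ≤ A.card), ← hE]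
    ring
  rw [add_assoc, e2]
  exact add_le_add hdiv le_rfl

end Pool.Agent.SPI
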